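import Pool.Agent.H82.HD.TA

/-! BCC: the class controls small scales (MP_ee74d2_an). -/

set_option autoImplicit false

namespace Pool.Agent.H4.HDS

open MeasureTheory Set
open Pool.Agent.H83.G Pool.Agent.H82.HD
open Pool.Agent.H22.G (co)
open scoped ENNReal NNReal RealInnerProductSpace

variable {m : ℕ}

lemma TP_smul (c : ℂ) (φ : E m → ℂ) (η : E m) (s : ℝ) (G : Z m → ℂ) (z : Z m) :
    TP (fun x => c * φ x) η s G z = c * TP φ η s G z := by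
  unfold TP TF cp
  rw [← integral_const_mul]
  refine integral_congr_ae (Filter.Eventually.of_forall fun ζ => ?_)
  simp only
  ring

/-- the centres of the planks -/
noncomputable def cen (σ : ℝ) (z₁ : Z m) (q : (Fin m → ℤ) × ℤ) : Z m :=
  z₁ + ((q.2 : ℝ) * σ, (σ ^ 2 / ((m : ℝ) + 1)) • WithLp.toLp 2 (fun i => (q.1 i : ℝ)), 0)

/-- the index set of the planks -/
noncomputable def box (m : ℕ) (B σ : ℝ) : Finset ((Fin m → ℤ) × ℤ) :=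
  (Fintype.piFinset fun _ : Fin m => Finset.Icc (-⌈B⌉) ⌈B⌉) ×ˢ
    Finset.Icc (-⌈B * σ⌉) ⌈B * σ⌉

lemma card_box (B σ : ℝ) (hB : 1 ≤ B) (hσ : 1 ≤ σ) :
    ((box m B σ).card : ℝ) ≤ (5 * B) ^ (m + 1) * σ := by
  have h1 : ∀ x : ℝ, 1 ≤ x → ((Finset.Icc (-⌈x⌉) ⌈x⌉).card : ℝ) ≤ 5 * x := by
    intro x hx
    have hc : 0 ≤ ⌈x⌉ := Int.ceil_nonneg (by linarith)
    rw [Int.card_Icc]
    have h2 : ((⌈x⌉ + 1 - -⌈x⌉).toNat : ℝ) = ((⌈x⌉ + 1 - -⌈x⌉ : ℤ) : ℝ) := by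
      exact_mod_cast Int.toNat_of_nonneg (by omega)
    rw [h2]
    push_cast
    have := Int.ceil_lt_add_one x
    linarith
  have hBσ : 1 ≤ B * σ := one_le_mul_of_one_le_of_one_le hB hσ
  unfold box
  rw [Finset.card_product, Fintype.card_piFinset]
  push_cast
  rw [Finset.prod_const, Finset.card_univ, Fintype.card_fin]
  calc ((Finset.Icc (-⌈B⌉) ⌈B⌉).card : ℝ) ^ m * ((Finset.Icc (-⌈B * σ⌉) ⌈B * σ⌉).card : ℝ)
      ≤ (5 * B) ^ m * (5 * (B * σ)) :=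
        mul_le_mul (pow_le_pow_left₀ (by positivity) (h1 B hB) m) (h1 _ hBσ) (by positivity)
          (by positivity)
    _ = (5 * B) ^ (m + 1) * σ := by ring

lemma norm_le_of_coord (x : E m) (c : ℝ) (hc : 0 ≤ c) (h : ∀ a, |x a| ≤ c) :
    ‖x‖ ≤ (m + 1) * c := by
  have h1 : ‖x‖ ^ 2 ≤ ((m + 1) * c) ^ 2 := by
    rw [EuclideanSpace.norm_sq_eq]
    calc ∑ a, ‖x a‖ ^ 2 ≤ ∑ _a : Fin m, c ^ 2 := by
          refine Finset.sum_le_sum fun a _ => ?_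
          rw [Real.norm_eq_abs]
          exact pow_le_pow_left₀ (abs_nonneg _) (h a) 2
      _ = m * c ^ 2 := by simp
      _ ≤ ((m + 1) * c) ^ 2 := by
          rw [mul_pow]
          refine mul_le_mul_of_nonneg_right ?_ (by positivity)
          have : (0 : ℝ) ≤ m := by positivity
          nlinarith
  exact (pow_le_pow_iff_left₀ (norm_nonneg _) (by positivity) (by norm_num)).1 h1

lemma floor_mem (x b : ℝ) (h : |x| + 1 ≤ b) : ⌊x⌋ ∈ Finset.Icc (-⌈b⌉) ⌈b⌉ := by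
  have h1 := abs_le.1 (show |x| ≤ b - 1 by linarith)
  rw [Finset.mem_Icc]
  constructor
  · have h2 : (-(⌈b⌉ : ℝ)) ≤ ⌊x⌋ := by
      have := Int.le_ceil b
      have := Int.sub_one_lt_floor x
      linarith
    exact_mod_cast h2
  · have h2 : (⌊x⌋ : ℝ) ≤ ⌈b⌉ := by
      have := Int.le_ceil b
      have := Int.floor_le x
      linarith
    exact_mod_cast h2

/-- covering of a ball by planks -/
lemma cover (D σ : ℝ) (hD : 0 ≤ D) (hσ : 1 ≤ σ) (η : E m) (hη : ‖η‖ ≤ D) (z₁ z : Z m)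
    (hz : ‖z - z₁‖ ≤ σ ^ 2) :
    ∃ q ∈ box m ((1 + 2 * D) * (m + 1) + 3 + 3 * D + 3 * D ^ 2) σ,
      z ∈ pl η σ⁻¹ σ (cen σ z₁ q) := by
  have hσ0 : 0 < σ := by linarith
  have hm : (0 : ℝ) ≤ m := by positivity
  set B : ℝ := (1 + 2 * D) * (m + 1) + 3 + 3 * D + 3 * D ^ 2 with hBdef
  set d : Z m := z - z₁ with hd
  have hv : |d.1| ≤ σ ^ 2 := (norm_fst_le d).trans hz
  have hy : ‖d.2.1‖ ≤ σ ^ 2 := (norm_fst_le d.2).trans ((norm_snd_le d).trans hz)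
  have hw : |d.2.2| ≤ σ ^ 2 := (norm_snd_le d.2).trans ((norm_snd_le d).trans hz)
  have hσ2 : 0 < σ ^ 2 := by positivity
  obtain ⟨Y, hYd⟩ : ∃ Y : E m, Y = d.2.1 + (2 * d.2.2) • η := ⟨_, rfl⟩
  have hY : ‖Y‖ ≤ σ ^ 2 * (1 + 2 * D) := by
    rw [hYd]
    refine (norm_add_le _ _).trans ?_
    rw [norm_smul, Real.norm_eq_abs, abs_mul, abs_two]
    have : 2 * |d.2.2| * ‖η‖ ≤ 2 * σ ^ 2 * D :=
      mul_le_mul (by linarith) hη (norm_nonneg _) (by positivity)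
    nlinarith
  obtain ⟨c, hcd⟩ : ∃ c : ℝ, c = σ ^ 2 / ((m : ℝ) + 1) := ⟨_, rfl⟩
  have hc : 0 < c := by rw [hcd]; positivity
  have hcm : (m + 1) * c = σ ^ 2 := by
    rw [hcd]
    field_simp
  obtain ⟨i, hid⟩ : ∃ i : Fin m → ℤ, i = fun a => ⌊Y a / c⌋ := ⟨_, rfl⟩
  obtain ⟨h, hhd⟩ : ∃ h : E m, h = c • WithLp.toLp 2 (fun a => (i a : ℝ)) := ⟨_, rfl⟩
  have hYh : ‖Y - h‖ ≤ σ ^ 2 := by
    rw [← hcm]
    refine norm_le_of_coord _ c hc.le fun a => ?_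
    have e1 : (Y - h) a = Y a - c * (⌊Y a / c⌋ : ℝ) := by
      rw [hhd, hid]
      simp
    rw [e1]
    have h1 := Int.floor_le (Y a / c)
    have h2 := Int.lt_floor_add_one (Y a / c)
    have e2 : Y a = c * (Y a / c) := by field_simp
    rw [abs_le]
    constructor <;> nlinarith
  have hh : ‖h‖ ≤ σ ^ 2 * (2 + 2 * D) := by
    have : h = Y - (Y - h) := by abel
    rw [this]
    refine (norm_sub_le _ _).trans ?_
    linarith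
  obtain ⟨V, hVd⟩ : ∃ V : ℝ, V = d.1 + ⟪d.2.1, η⟫ + d.2.2 * ‖η‖ ^ 2 := ⟨_, rfl⟩
  have hin : ∀ x : E m, |⟪x, η⟫| ≤ ‖x‖ * D := fun x =>
    (abs_real_inner_le_norm x η).trans (mul_le_mul_of_nonneg_left hη (norm_nonneg _))
  have hη2 : ‖η‖ ^ 2 ≤ D ^ 2 := pow_le_pow_left₀ (norm_nonneg _) hη 2
  have hV : |V| ≤ σ ^ 2 * (1 + D + D ^ 2) := by
    rw [hVd]
    have h1 := abs_add_le (d.1 + ⟪d.2.1, η⟫) (d.2.2 * ‖η‖ ^ 2)
    have h2 := abs_add_le d.1 ⟪d.2.1, η⟫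
    have h3 : |⟪d.2.1, η⟫| ≤ σ ^ 2 * D := (hin _).trans (mul_le_mul_of_nonneg_right hy hD)
    have h4 : |d.2.2 * ‖η‖ ^ 2| ≤ σ ^ 2 * D ^ 2 := by
      rw [abs_mul, abs_of_nonneg (sq_nonneg ‖η‖)]
      exact mul_le_mul hw hη2 (sq_nonneg _) hσ2.le
    nlinarith
  have hhi : |⟪h, η⟫| ≤ σ ^ 2 * (2 + 2 * D) * D :=
    (hin h).trans (mul_le_mul_of_nonneg_right hh hD)
  obtain ⟨j, hjd⟩ : ∃ j : ℤ, j = ⌊(V - ⟪h, η⟫) / σ⌋ := ⟨_, rfl⟩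
  refine ⟨(i, j), ?_, ?_⟩
  · unfold box
    rw [Finset.mem_product, Fintype.mem_piFinset]
    refine ⟨fun a => ?_, ?_⟩
    · simp only [hid]
      refine floor_mem _ _ ?_
      have h1 : |Y a| ≤ ‖Y‖ := by
        have := PiLp.norm_apply_le Y a
        rwa [Real.norm_eq_abs] at this
      rw [abs_div, abs_of_pos hc]
      have h2 : |Y a| / c ≤ (1 + 2 * D) * (m + 1) := by
        rw [div_le_iff₀ hc]
        calc |Y a| ≤ σ ^ 2 * (1 + 2 * D) := h1.trans hY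
          _ = (1 + 2 * D) * (m + 1) * c := by rw [mul_assoc (1 + 2 * D), hcm]; ring
      rw [hBdef]
      nlinarith
    · rw [hjd]
      refine floor_mem _ _ ?_
      have h1 : |V - ⟪h, η⟫| ≤ σ ^ 2 * (1 + 3 * D + 3 * D ^ 2) := by
        have := abs_sub V ⟪h, η⟫
        nlinarith
      rw [abs_div, abs_of_pos hσ0]
      have h2 : |V - ⟪h, η⟫| / σ ≤ σ * (1 + 3 * D + 3 * D ^ 2) := by
        rw [div_le_iff₀ hσ0]
        calc _ ≤ σ ^ 2 * (1 + 3 * D + 3 * D ^ 2) := h1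
          _ = _ := by ring
      have h3 : σ * (1 + 3 * D + 3 * D ^ 2) + 1 ≤ B * σ := by
        have h4 : 0 ≤ (1 + 2 * D) * (m + 1) * σ := by positivity
        rw [hBdef]
        nlinarith
      linarith
  · have e0 : z - cen σ z₁ (i, j) = ((d.1 - j * σ, d.2.1 - h, d.2.2) : Z m) := by
      have : z - cen σ z₁ (i, j) = d - ((j : ℝ) * σ, h, 0) := by
        unfold cen
        rw [hd, hhd, hcd]
        abel
      rw [this]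
      ext1
      · simp
      · ext1 <;> simp
    show ‖Lo η σ⁻¹ (z - cen σ z₁ (i, j))‖ ≤ σ
    rw [e0]
    unfold Lo
    simp only
    rw [Prod.norm_def, Prod.norm_def]
    refine max_le ?_ (max_le ?_ ?_)
    · simp only
      have e1 : d.1 - j * σ + ⟪d.2.1 - h, η⟫ + d.2.2 * ‖η‖ ^ 2 = V - ⟪h, η⟫ - j * σ := by
        rw [hVd, inner_sub_left]
        ring
      rw [e1, Real.norm_eq_abs, hjd]
      have h1 := Int.floor_le ((V - ⟪h, η⟫) / σ)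
      have h2 := Int.lt_floor_add_one ((V - ⟪h, η⟫) / σ)
      have e2 : V - ⟪h, η⟫ = (V - ⟪h, η⟫) / σ * σ := by field_simp
      rw [abs_le]
      constructor <;> nlinarith
    · simp only
      have e1 : d.2.1 - h + (2 * d.2.2) • η = Y - h := by
        rw [hYd]
        abel
      rw [e1, norm_smul, norm_inv, Real.norm_eq_abs, abs_of_pos hσ0]
      rw [inv_mul_le_iff₀ hσ0]
      calc ‖Y - h‖ ≤ σ ^ 2 := hYh
        _ = σ * σ := by ring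
    · simp only
      rw [Real.norm_eq_abs, abs_mul, abs_of_nonneg (by positivity), inv_pow,
        inv_mul_le_iff₀ hσ2]
      nlinarith

lemma lint_cover {ι : Type} (S : Finset ι) (Q : ι → Set (Z m)) (X : Set (Z m))
    (f : Z m → ℝ≥0∞) (h : ∀ z ∈ X, ∃ q ∈ S, z ∈ Q q) :
    ∫⁻ z in X, f z ≤ ∑ q ∈ S, ∫⁻ z in Q q, f z := by
  have h1 : X ⊆ ⋃ q : S, Q q := fun z hz => by
    obtain ⟨q, hq, hzq⟩ := h z hz
    exact Set.mem_iUnion.2 ⟨⟨q, hq⟩, hzq⟩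
  refine (lintegral_mono_set h1).trans ((lintegral_iUnion_le _ f).trans ?_)
  rw [tsum_fintype]
  exact (Finset.sum_coe_sort S (fun q => ∫⁻ z in Q q, f z)).le

theorem pf_BCC (hBPG : T_BPG) (hPUB : T_PUB) (hPUS : T_PUS) (hLOA : T_LOA) (hLOB : T_LOB) :
    T_BCC := by
  classical
  intro m L β hβ
  obtain ⟨Cβ, hCβ, hφ⟩ := hPUB m L β hβ
  obtain ⟨-, -, CP, hCP, -, hcount, hnorm⟩ := hPUS m
  obtain ⟨hlin, -, -, -, hD⟩ := hBPG m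
  obtain ⟨Cb, hCb, hb1, hb2⟩ := hD CP hCP.le
  have hCβ0 : 0 < Cβ := by linarith
  have hm : (0 : ℝ) ≤ m := by positivity
  obtain ⟨B, hBd⟩ : ∃ B : ℝ, B = (1 + 2 * CP) * (m + 1) + 3 + 3 * CP + 3 * CP ^ 2 := ⟨_, rfl⟩
  have hB : 1 ≤ B := by
    rw [hBd]
    have : 0 ≤ (1 + 2 * CP) * ((m : ℝ) + 1) := by positivity
    nlinarith
  obtain ⟨K1, hK1⟩ : ∃ K1 : ℝ, K1 = CP * (1 + 16 * (Cb * (1 + Cb))) ^ m := ⟨_, rfl⟩
  obtain ⟨K2, hK2⟩ : ∃ K2 : ℝ, K2 = (5 * B) ^ (m + 1) := ⟨_, rfl⟩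
  have hK10 : 0 ≤ K1 := by rw [hK1]; positivity
  have hK20 : 0 ≤ K2 := by rw [hK2]; positivity
  refine ⟨max 1 (K1 * (K2 * Cβ ^ 2)), le_max_left _ _, ?_⟩
  intro κ R T A ρ G z₁ p hκ hκ' hR hρ hρR hRT hA hCls htm
  obtain ⟨σ, hσd⟩ : ∃ σ : ℝ, σ = Real.sqrt ρ := ⟨_, rfl⟩
  have hρ0 : 0 < ρ := by linarith
  have hσ : 1 ≤ σ := by
    rw [hσd]
    exact Real.one_le_sqrt.2 hρ
  have hσ0 : 0 < σ := by linarith
  have hσ2 : σ ^ 2 = ρ := by rw [hσd]; exact Real.sq_sqrt hρ0.le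
  have hs : sR ρ = σ⁻¹ := by unfold sR; rw [hσd]
  have hσ3 : σ ^ 3 ≤ R := by
    have e1 : ρ ^ (3 / 2 : ℝ) = σ ^ 3 := by
      rw [hσd, Real.sqrt_eq_rpow, ← Real.rpow_natCast, ← Real.rpow_mul hρ0.le]
      norm_num
    rw [← e1]
    exact hρR
  have hT0 : 0 < T := by linarith
  rw [hs]
  -- the number of caps
  obtain ⟨J, hJd⟩ : ∃ J : Finset (Fin m → ℤ), J =
    (Ks m σ⁻¹).filter (fun k => (Om T ρ (ctr σ⁻¹ k) z₁ p).Nonempty) := ⟨_, rfl⟩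
  have hs1 : σ⁻¹ ≤ 1 := inv_le_one_of_one_le₀ hσ
  have hs0 : 0 < σ⁻¹ := inv_pos.2 hσ0
  have hbase : ∀ k ∈ J, ‖bp (ctr σ⁻¹ k) z₁ - p‖ ≤ (1 + Cb) * (T * σ⁻¹) := by
    intro k hk
    rw [hJd, Finset.mem_filter] at hk
    obtain ⟨z, hz1, hz2⟩ := hk.2
    have hη : ‖ctr σ⁻¹ k‖ ≤ CP := hnorm σ⁻¹ k hs0 hs1 hk.1
    have e1 : bp (ctr σ⁻¹ k) z₁ - p = (bp (ctr σ⁻¹ k) z - p) - bp (ctr σ⁻¹ k) (z - z₁) := by
      rw [(hlin _ _ _).2]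
      abel
    have h1 : ‖bp (ctr σ⁻¹ k) (z - z₁)‖ ≤ Cb * (T * σ⁻¹) := by
      refine ((hb1 _ _ hη).1).trans (mul_le_mul_of_nonneg_left ?_ (by linarith))
      have h2 : ρ ≤ T * σ⁻¹ := by
        rw [← div_eq_mul_inv, le_div_iff₀ hσ0, ← hσ2]
        calc σ ^ 2 * σ = σ ^ 3 := by ring
          _ ≤ T := hσ3.trans hRT
      linarith
    rw [hs] at hz2
    rw [e1]
    refine (norm_sub_le _ _).trans ?_
    linarith
  have hJ : (J.card : ℝ) ≤ K1 := by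
    rcases J.eq_empty_or_nonempty with h0 | ⟨k0, hk0⟩
    · rw [h0]
      simpa using hK10
    · have hk0' : ‖ctr σ⁻¹ k0‖ ≤ CP := by
        rw [hJd, Finset.mem_filter] at hk0
        exact hnorm σ⁻¹ k0 hs0 hs1 hk0.1
      have h := hcount σ⁻¹ (16 * (Cb * (1 + Cb)) * σ⁻¹) (ctr σ⁻¹ k0) J hs0 (by positivity) ?_
      · rwa [mul_div_assoc, div_self hs0.ne', mul_one, ← hK1] at h
      · intro k hk
        have hk' : ‖ctr σ⁻¹ k‖ ≤ CP := by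
          rw [hJd, Finset.mem_filter] at hk
          exact hnorm σ⁻¹ k hs0 hs1 hk.1
        have h1 := (hb2 (ctr σ⁻¹ k) (ctr σ⁻¹ k0) z₁ hk' hk0').2.1
        have h2 : ‖bp (ctr σ⁻¹ k) z₁ - bp (ctr σ⁻¹ k0) z₁‖ ≤ 2 * ((1 + Cb) * (T * σ⁻¹)) := by
          have e1 : bp (ctr σ⁻¹ k) z₁ - bp (ctr σ⁻¹ k0) z₁ =
              (bp (ctr σ⁻¹ k) z₁ - p) - (bp (ctr σ⁻¹ k0) z₁ - p) := by abel
          rw [e1]
          refine (norm_sub_le _ _).trans ?_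
          linarith [hbase k hk, hbase k0 hk0]
        have h3 : T / 8 * ‖ctr σ⁻¹ k - ctr σ⁻¹ k0‖ ≤ Cb * (2 * ((1 + Cb) * (T * σ⁻¹))) := by
          refine (mul_le_mul_of_nonneg_right (htm.trans (le_abs_self _)) (norm_nonneg _)).trans
            (h1.trans ?_)
          exact mul_le_mul_of_nonneg_left h2 (by linarith)
        have h4 : T * ‖ctr σ⁻¹ k - ctr σ⁻¹ k0‖ ≤ T * (16 * (Cb * (1 + Cb)) * σ⁻¹) := by
          linarith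
        exact le_of_mul_le_mul_left h4 hT0
  -- one cap
  obtain ⟨φ, hφd⟩ : ∃ φ : E m → ℂ, φ = fun x => ((Cβ⁻¹ : ℝ) : ℂ) * β x := ⟨_, rfl⟩
  have hβφ : β = fun x => (Cβ : ℂ) * φ x := by
    rw [hφd]
    funext x
    have : (Cβ : ℂ) ≠ 0 := by exact_mod_cast hCβ0.ne'
    push_cast
    field_simp
  have hplank : ∀ (η : E m) (z0 : Z m), ∫⁻ z in pl η σ⁻¹ σ z0, ‖TP β η σ⁻¹ G z‖ₑ ^ 2 ≤
      ENNReal.ofReal (Cβ ^ 2 * (A ^ 2 * (R * σ⁻¹ ^ 2 / σ) ^ m * (σ / σ⁻¹) ^ (m + 2))) := by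
    intro η z0
    have hr : σ ≤ R * σ⁻¹ ^ 2 := by
      rw [inv_pow, ← div_eq_mul_inv, le_div_iff₀ (by positivity)]
      calc σ * σ ^ 2 = σ ^ 3 := by ring
        _ ≤ R := hσ3
    have h1 := hCls.2.2 φ (by rw [hφd]; exact hφ) η σ⁻¹ σ z0 hs0 hs1 hσ hr
    have e1 : ∀ z, ‖TP β η σ⁻¹ G z‖ₑ ^ 2 =
        ENNReal.ofReal (Cβ ^ 2) * ‖TP φ η σ⁻¹ G z‖ₑ ^ 2 := by
      intro z
      rw [hβφ, TP_smul, enorm_mul, mul_pow]
      congr 1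
      rw [← ofReal_norm, Complex.norm_real, Real.norm_eq_abs, abs_of_pos hCβ0,
        ENNReal.ofReal_pow hCβ0.le]
    simp_rw [e1]
    rw [lintegral_const_mul' _ _ ENNReal.ofReal_ne_top, ENNReal.ofReal_mul (by positivity)]
    gcongr
  have hone : ∀ k ∈ Ks m σ⁻¹, ∫⁻ z in Om T ρ (ctr σ⁻¹ k) z₁ p, ‖TP β (ctr σ⁻¹ k) σ⁻¹ G z‖ₑ ^ 2 ≤
      ENNReal.ofReal (K2 * Cβ ^ 2 * (A ^ 2 * R ^ m * ρ ^ (5 / 2 - (m : ℝ) / 2))) := by
    intro k hk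
    have hη : ‖ctr σ⁻¹ k‖ ≤ CP := hnorm σ⁻¹ k hs0 hs1 hk
    have h1 := lint_cover (box m B σ) (fun q => pl (ctr σ⁻¹ k) σ⁻¹ σ (cen σ z₁ q))
      (Om T ρ (ctr σ⁻¹ k) z₁ p) (fun z => ‖TP β (ctr σ⁻¹ k) σ⁻¹ G z‖ₑ ^ 2) (fun z hz => by
        have := cover CP σ hCP.le hσ (ctr σ⁻¹ k) hη z₁ z (by rw [hσ2]; exact hz.1)
        rw [← hBd] at this
        exact this)
    refine h1.trans ((Finset.sum_le_sum fun q _ => hplank (ctr σ⁻¹ k) (cen σ z₁ q)).trans ?_)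
    rw [Finset.sum_const, nsmul_eq_mul, ← ENNReal.ofReal_natCast,
      ← ENNReal.ofReal_mul (Nat.cast_nonneg _)]
    refine ENNReal.ofReal_le_ofReal ?_
    have hcard := card_box (m := m) B σ hB hσ
    rw [← hK2] at hcard
    have e2 : (R * σ⁻¹ ^ 2 / σ) ^ m * (σ / σ⁻¹) ^ (m + 2) * σ =
        R ^ m * ρ ^ (5 / 2 - (m : ℝ) / 2) := by
      have e3 : ρ ^ (5 / 2 - (m : ℝ) / 2) = σ ^ 5 / σ ^ m := by
        rw [← hσ2, ← Real.rpow_natCast σ 2, ← Real.rpow_mul hσ0.le,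
          ← Real.rpow_natCast σ 5, ← Real.rpow_natCast σ m, ← Real.rpow_sub hσ0]
        congr 1
        push_cast
        ring
      have e4 : R * σ⁻¹ ^ 2 / σ = R / σ ^ 3 := by field_simp
      have e5 : σ / σ⁻¹ = σ ^ 2 := by field_simp
      rw [e3, e4, e5, div_pow, ← pow_mul, ← pow_mul]
      have h5 : σ ^ (2 * (m + 2)) = σ ^ (3 * m) / σ ^ m * σ ^ 4 := by
        have : σ ^ (3 * m) = σ ^ (2 * m) * σ ^ m := by rw [← pow_add]; congr 1; ring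
        rw [this, mul_div_assoc, div_self (by positivity), mul_one, ← pow_add]
        congr 1
      rw [h5]
      have h6 : σ ^ (3 * m) ≠ 0 := by positivity
      field_simp
    calc ((box m B σ).card : ℝ) * (Cβ ^ 2 * (A ^ 2 * (R * σ⁻¹ ^ 2 / σ) ^ m *
          (σ / σ⁻¹) ^ (m + 2)))
        ≤ (K2 * σ) * (Cβ ^ 2 * (A ^ 2 * (R * σ⁻¹ ^ 2 / σ) ^ m * (σ / σ⁻¹) ^ (m + 2))) :=
          mul_le_mul_of_nonneg_right hcard (by positivity)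
      _ = K2 * Cβ ^ 2 * (A ^ 2 * ((R * σ⁻¹ ^ 2 / σ) ^ m * (σ / σ⁻¹) ^ (m + 2) * σ)) := by ring
      _ = K2 * Cβ ^ 2 * (A ^ 2 * R ^ m * ρ ^ (5 / 2 - (m : ℝ) / 2)) := by rw [e2]; ring
  -- all caps
  have hsum : ∑ k ∈ Ks m σ⁻¹, ∫⁻ z in Om T ρ (ctr σ⁻¹ k) z₁ p,
      ‖TP β (ctr σ⁻¹ k) σ⁻¹ G z‖ₑ ^ 2 =
      ∑ k ∈ J, ∫⁻ z in Om T ρ (ctr σ⁻¹ k) z₁ p, ‖TP β (ctr σ⁻¹ k) σ⁻¹ G z‖ₑ ^ 2 := by
    symm
    refine Finset.sum_subset (by rw [hJd]; exact Finset.filter_subset _ _) fun k hk hkJ => ?_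
    have h0 : Om T ρ (ctr σ⁻¹ k) z₁ p = ∅ := by
      by_contra hne
      refine hkJ ?_
      rw [hJd, Finset.mem_filter]
      exact ⟨hk, Set.nonempty_iff_ne_empty.2 hne⟩
    rw [h0]
    simp
  rw [hsum]
  refine (Finset.sum_le_sum fun k hk => hone k (by
    rw [hJd] at hk
    exact (Finset.mem_filter.1 hk).1)).trans ?_
  rw [Finset.sum_const, nsmul_eq_mul, ← ENNReal.ofReal_natCast,
    ← ENNReal.ofReal_mul (Nat.cast_nonneg _)]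
  refine ENNReal.ofReal_le_ofReal ?_
  have hpos : 0 ≤ A ^ 2 * R ^ m * ρ ^ (5 / 2 - (m : ℝ) / 2) := by positivity
  calc (J.card : ℝ) * (K2 * Cβ ^ 2 * (A ^ 2 * R ^ m * ρ ^ (5 / 2 - (m : ℝ) / 2)))
      ≤ K1 * (K2 * Cβ ^ 2 * (A ^ 2 * R ^ m * ρ ^ (5 / 2 - (m : ℝ) / 2))) :=
        mul_le_mul_of_nonneg_right hJ (by positivity)
    _ = K1 * (K2 * Cβ ^ 2) * (A ^ 2 * R ^ m * ρ ^ (5 / 2 - (m : ℝ) / 2)) := by ring
    _ ≤ _ := mul_le_mul_of_nonneg_right (le_max_right _ _) hpos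

end Pool.Agent.H4.HDS
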